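import Pool.Agent.Run7.h172.RHLabel

/-!
# 1x1 Rush Hour with an empty L-shaped corridor
-/

namespace Pool.Agent.Results.MP_f117a2_lc.EmptyCorridor

open Pool.Agent.Run7.h172.RH

/-- Initially there is an empty L-shaped (or T-shaped) corridor, made of a part of some row `i₀`
and a part of some column `j₀`.
If blocks cross the opening horizontally: column `j₀` is empty from row `i₀` to the row of the
target, and row `i₀` is empty on the whole interval spanned by `j₀`, the column of the target and
the column of the opening. If blocks cross the opening vertically: the same with the roles of rows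
and columns exchanged. -/
def HasCorridor {m n : ℕ} (I : Instance m n) : Prop :=
  ∃ i₀ j₀ : ℤ, InGrid m n i₀ j₀ ∧
    match I.side.ori with
    | Ori.H =>
      (∀ i, min i₀ I.target.1 ≤ i → i ≤ max i₀ I.target.1 → I.board i j₀ = none) ∧
      (∀ j, min j₀ (min I.target.2 I.exit.2) ≤ j → j ≤ max j₀ (max I.target.2 I.exit.2) →
        I.board i₀ j = none)
    | Ori.V =>
      (∀ j, min j₀ I.target.2 ≤ j → j ≤ max j₀ I.target.2 → I.board i₀ j = none) ∧
      (∀ i, min i₀ (min I.target.1 I.exit.1) ≤ i → i ≤ max i₀ (max I.target.1 I.exit.1) →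
        I.board i j₀ = none)

/-- An instance of 1x1 Rush Hour with an empty corridor (in particular, any instance in which some
row and some column are empty) is solvable if and only if it is not obviously obstructed. -/
theorem result (m n : ℕ) (I : Instance m n) (h : HasCorridor I) :
    I.Solvable ↔ I.Unobstructed := by
  obtain ⟨i₀, j₀, h0, hc⟩ := h
  obtain ⟨X, hX, p, hp, e, he, sd, hsd⟩ := I
  unfold Instance.Solvable Instance.Unobstructed
  simp only at hc ⊢
  cases sd with
  | right =>
    simp only [Side.ori, Side.OnBoundary] at *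
    exact right_core m n X hX p e hp he hsd i₀ j₀ h0 hc.1 hc.2
  | left =>
    simp only [Side.ori, Side.OnBoundary] at *
    exact left_core m n X hX p e hp he hsd i₀ j₀ h0 hc.1 hc.2
  | top =>
    simp only [Side.ori, Side.OnBoundary] at *
    have hXt : Supp n m (tra X) := by
      intro i j hij
      have h1 : X j i ≠ none := fun h => hij (flipO_none.2 h)
      obtain ⟨a, b, c, d⟩ := hX _ _ h1
      exact ⟨c, d, a, b⟩
    have key := left_core n m (tra X) hXt (p.2, p.1) (e.2, e.1)
      (fun h => hp (flipO_none.1 h)) ⟨he.2.2.1, he.2.2.2, he.1, he.2.1⟩ hsd j₀ i₀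
      ⟨h0.2.2.1, h0.2.2.2, h0.1, h0.2.1⟩
      (fun i h1 h2 => flipO_none.2 (hc.1 i h1 h2)) (fun j h1 h2 => flipO_none.2 (hc.2 j h1 h2))
    rw [← solv_tra] at key
    refine key.trans ?_
    simp only [tra, flipO_H, ne_eq]
  | bottom =>
    simp only [Side.ori, Side.OnBoundary] at *
    have hXt : Supp n m (tra X) := by
      intro i j hij
      have h1 : X j i ≠ none := fun h => hij (flipO_none.2 h)
      obtain ⟨a, b, c, d⟩ := hX _ _ h1
      exact ⟨c, d, a, b⟩
    have key := right_core n m (tra X) hXt (p.2, p.1) (e.2, e.1)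
      (fun h => hp (flipO_none.1 h)) ⟨he.2.2.1, he.2.2.2, he.1, he.2.1⟩ hsd j₀ i₀
      ⟨h0.2.2.1, h0.2.2.2, h0.1, h0.2.1⟩
      (fun i h1 h2 => flipO_none.2 (hc.1 i h1 h2)) (fun j h1 h2 => flipO_none.2 (hc.2 j h1 h2))
    have key2 : Solv m n X p e Ori.V ↔ _ := solv_tra.trans key
    refine key2.trans ?_
    simp only [tra, flipO_H, ne_eq]

end Pool.Agent.Results.MP_f117a2_lc.EmptyCorridor
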